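import Pool.Agent.R831.Embed

/-!
# A Lovász–Saks–Schrijver ideal with an embedded prime
-/

namespace Pool.Agent.Results.MP_e1e5e2_ag.EmbeddedPrime

open MvPolynomial

/-- The Lovász–Saks–Schrijver ideal `LSS(d, G)` in `K[x_{i,j} : i < d, j < n]`, generated by
`∑ᵢ x_{i,j} x_{i,k}` for the edges `{j,k}` of `G`. -/
noncomputable def lss (K : Type*) [Field K] (d n : ℕ) (G : SimpleGraph (Fin n)) :
    Ideal (MvPolynomial (Fin d × Fin n) K) :=
  Ideal.span {g | ∃ j k, G.Adj j k ∧ g = ∑ i : Fin d, X (i, j) * X (i, k)}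

/-- the edges of the graph: a triangle `0,1,2` with a `K₄` (on `0,3,4,5`) glued at `0` and
a `K₄` (on `1,6,7,8`) glued at `1`. -/
def edges : Finset (Fin 9 × Fin 9) :=
  {(0, 1), (0, 2), (1, 2), (0, 3), (0, 4), (0, 5), (3, 4), (3, 5), (4, 5),
    (1, 6), (1, 7), (1, 8), (6, 7), (6, 8), (7, 8)}

/-- the graph on 9 vertices with 15 edges -/
def G : SimpleGraph (Fin 9) := SimpleGraph.fromRel (fun j k => (j, k) ∈ edges)

section algebra
variable {T : Type*} [CommRing T]

/-- the standard bilinear form on `T³` -/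
def dot (u w : Fin 3 → T) : T := u 0 * w 0 + u 1 * w 1 + u 2 * w 2

lemma dot_comm (u w : Fin 3 → T) : dot u w = dot w u := by
  simp only [dot]; ring

/-- the `3 × 3` determinant -/
def det3 (a b c d e f g h i : T) : T := a * (e * i - f * h) - b * (d * i - f * g) +
  c * (d * h - e * g)

/-- Mixed Gram determinants of four vectors of `T³` vanish; here the last vector is `(1,0,0)`. -/
lemma gram (u1 u2 u3 w1 w2 w3 : Fin 3 → T) :
    dot u1 w1 * det3 (dot u2 w2) (dot u2 w3) (u2 0) (dot u3 w2) (dot u3 w3) (u3 0) (w2 0) (w3 0) 1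
    - dot u1 w2 * det3 (dot u2 w1) (dot u2 w3) (u2 0) (dot u3 w1) (dot u3 w3) (u3 0)
      (w1 0) (w3 0) 1
    + dot u1 w3 * det3 (dot u2 w1) (dot u2 w2) (u2 0) (dot u3 w1) (dot u3 w2) (u3 0)
      (w1 0) (w2 0) 1
    - u1 0 * det3 (dot u2 w1) (dot u2 w2) (dot u2 w3) (dot u3 w1) (dot u3 w2) (dot u3 w3)
      (w1 0) (w2 0) (w3 0) = 0 := by
  simp only [dot, det3]
  ring

/-- In `T³`, if `a, f, b, c` are mutually orthogonal, then `a² f² b₀ c₀ = 0`. -/
lemma gram_four (a f b c : Fin 3 → T) (h1 : dot a f = 0) (h2 : dot a b = 0) (h3 : dot a c = 0)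
    (h4 : dot f b = 0) (h5 : dot f c = 0) (h6 : dot b c = 0) :
    dot a a * dot f f * (b 0 * c 0) = 0 := by
  have key := gram a f b a f c
  rw [dot_comm f a, dot_comm b a, dot_comm b f, h1, h2, h3, h4, h5, h6] at key
  simp only [det3] at key
  linear_combination -key

/-- In `T³`, if `f` is orthogonal to `x, y, a`, then `f₀² ((x·y)(a·a) - (x·a)(a·y))` is a
multiple of `f·f`. -/
lemma gram_two (f x y a : Fin 3 → T) (h1 : dot f x = 0) (h2 : dot f y = 0) (h3 : dot f a = 0) :
    dot f f ∣ (f 0) ^ 2 * (dot x y * dot a a - dot x a * dot a y) := by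
  have key := gram f x a f y a
  rw [dot_comm x f, dot_comm a f, h1, h2, h3] at key
  refine ⟨det3 (dot x y) (dot x a) (x 0) (dot a y) (dot a a) (a 0) (y 0) (a 0) 1, ?_⟩
  simp only [det3] at key ⊢
  linear_combination -key

end algebra

/-- The relations of `LSS(3, G)` for nine vectors of `T³`. -/
def Rel {T : Type*} [CommRing T] (x : Fin 9 → Fin 3 → T) : Prop :=
  ∀ e ∈ edges, dot (x e.1) (x e.2) = 0

lemma lss_le_ker {K T : Type*} [Field K] [CommRing T]
    (φ : MvPolynomial (Fin 3 × Fin 9) K →+* T) (v : Fin 9 → Fin 3 → T)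
    (hv : ∀ j i, v j i = φ (X (i, j))) :
    lss K 3 9 G ≤ RingHom.ker φ ↔ Rel v := by
  have key : ∀ j k, φ (∑ i : Fin 3, X (i, j) * X (i, k)) = dot (v j) (v k) := by
    intro j k
    simp [Fin.sum_univ_three, dot, hv]
  constructor
  · intro h e he
    rw [← key, ← RingHom.mem_ker]
    apply h
    apply Ideal.subset_span
    refine ⟨e.1, e.2, ?_, rfl⟩
    revert he
    revert e
    simp only [G, SimpleGraph.fromRel_adj]
    decide
  · intro h
    apply Ideal.span_le.2
    rintro g ⟨j, k, hjk, rfl⟩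
    rw [SetLike.mem_coe, RingHom.mem_ker, key]
    simp only [G, SimpleGraph.fromRel_adj] at hjk
    rcases hjk.2 with h1 | h1
    · exact h _ h1
    · rw [dot_comm]; exact h _ h1

/-- Nine vectors of `L[ε]³` satisfying the relations of `LSS(3, G)`. -/
noncomputable def w {L : Type*} [Field L] (ι : L) : Fin 9 → Fin 3 → DualNumber L :=
  ![![1, algebraMap L _ ι, 0], ![1, algebraMap L _ ι, DualNumber.eps],
    ![1, algebraMap L _ ι, 0], ![0, 0, 1], ![1, algebraMap L _ ι, 0], ![1, algebraMap L _ ι, 0],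
    ![-(algebraMap L _ 2⁻¹) * DualNumber.eps, algebraMap L _ (ι / 2) * DualNumber.eps, 1],
    ![1, algebraMap L _ ι, DualNumber.eps], ![1, algebraMap L _ ι, DualNumber.eps]]

lemma rel_w {L : Type*} [Field L] (h2 : (2 : L) ≠ 0) {ι : L} (hι : ι ^ 2 = -1) : Rel (w ι) := by
  have h1 : (algebraMap L (DualNumber L) ι) * (algebraMap L (DualNumber L) ι) = -1 := by
    rw [← map_mul, ← pow_two, hι, map_neg, map_one]
  have h3 : (algebraMap L (DualNumber L) ι) * (algebraMap L (DualNumber L) (ι / 2)) =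
      - algebraMap L (DualNumber L) 2⁻¹ := by
    rw [← map_mul, ← map_neg]
    congr 1
    field_simp
    rw [hι]
  have h4 : (DualNumber.eps : DualNumber L) * DualNumber.eps = 0 := DualNumber.eps_mul_eps
  have h5 : algebraMap L (DualNumber L) 2⁻¹ + algebraMap L (DualNumber L) 2⁻¹ = 1 := by
    rw [← map_add, ← map_one (algebraMap L (DualNumber L))]
    congr 1
    field_simp
    norm_num
  intro e he
  simp only [edges, Finset.mem_insert, Finset.mem_singleton] at he
  rcases he with rfl | rfl | rfl | rfl | rfl | rfl | rfl | rfl | rfl | rfl | rfl | rfl | rfl |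
    rfl | rfl <;> simp [dot, w]
  all_goals first
    | linear_combination h1
    | linear_combination (DualNumber.eps : DualNumber L) * h3 - DualNumber.eps * h5

section main
variable (K : Type*) [Field K]

/-- the ambient polynomial ring -/
abbrev S := MvPolynomial (Fin 3 × Fin 9) K

/-- the `j`-th column of variables -/
noncomputable def V (j : Fin 9) : Fin 3 → S K := fun i => X (i, j)

/-- the multiplier at the first `K₄` -/
noncomputable def A1 : S K := dot (V K 3) (V K 3) * (V K 4 0 * V K 5 0)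
/-- the multiplier at the second `K₄` -/
noncomputable def A2 : S K := dot (V K 6) (V K 6) * (V K 7 0 * V K 8 0)

lemma map_dot {T T' : Type*} [CommRing T] [CommRing T'] (φ : T →+* T') (u v : Fin 3 → T) :
    φ (dot u v) = dot (fun i => φ (u i)) (fun i => φ (v i)) := by
  simp [dot]

lemma hr : dot (V K 2) (V K 3) * (A1 K * (V K 0 0) ^ 2 * dot (V K 1) (V K 3)) ∈ lss K 3 9 G := by
  rw [← Ideal.Quotient.eq_zero_iff_mem]
  set φ := Ideal.Quotient.mk (lss K 3 9 G) with hφ
  set v : Fin 9 → Fin 3 → (S K ⧸ lss K 3 9 G) := fun j i => φ (X (i, j)) with hv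
  have hrel : Rel v := (lss_le_ker φ v (fun _ _ => rfl)).1 (by rw [hφ, Ideal.mk_ker])
  have hV : ∀ j, (fun i => φ (V K j i)) = v j := fun j => rfl
  have e : ∀ j k, (j, k) ∈ edges → dot (v j) (v k) = 0 := fun j k h => hrel (j, k) h
  obtain ⟨c, hc⟩ := gram_two (v 0) (v 1) (v 2) (v 3) (e 0 1 (by decide)) (e 0 2 (by decide))
    (e 0 3 (by decide))
  have h4 := gram_four (v 3) (v 0) (v 4) (v 5) (by rw [dot_comm]; exact e 0 3 (by decide))
    (e 3 4 (by decide)) (e 3 5 (by decide)) (e 0 4 (by decide)) (e 0 5 (by decide))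
    (e 4 5 (by decide))
  rw [e 1 2 (by decide)] at hc
  rw [map_mul, map_mul, map_mul, A1, map_mul, map_mul, map_dot, map_dot, map_dot, map_pow]
  simp only [hV]
  have h0 : ∀ j i, φ (V K j i) = v j i := fun j i => rfl
  rw [h0, h0, h0, dot_comm (v 2) (v 3)]
  linear_combination (-(dot (v 3) (v 3) * (v 4 0 * v 5 0))) * hc - c * h4

lemma hg (h2 : (2 : K) ≠ 0) (k : ℕ) :
    (A1 K * A2 K * V K 0 0) ^ k * (A1 K * (V K 0 0) ^ 2 * dot (V K 1) (V K 3)) ∉ lss K 3 9 G := by
  intro h
  let L := AlgebraicClosure K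
  obtain ⟨ι, hι⟩ := IsAlgClosed.exists_pow_nat_eq (-1 : L) (n := 2) (by norm_num)
  have h2' : (2 : L) ≠ 0 := by
    have := (map_ne_zero (algebraMap K L)).2 h2
    rwa [map_ofNat] at this
  let φ : S K →+* DualNumber L :=
    eval₂Hom ((algebraMap L (DualNumber L)).comp (algebraMap K L)) (fun x => w ι x.2 x.1)
  have hφ : ∀ j i, w ι j i = φ (X (i, j)) := by
    intro j i
    simp [φ]
  have hrel := (lss_le_ker φ (w ι) hφ).2 (rel_w h2' hι)
  have h3 := hrel h
  have hV : ∀ j, (fun i => φ (V K j i)) = w ι j := by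
    intro j
    funext i
    rw [hφ]; rfl
  have h0 : φ (V K 0 0) = 1 := by
    have : φ (V K 0 0) = w ι 0 0 := congrFun (hV 0) 0
    rw [this]; simp [w]
  have h4 : (DualNumber.eps : DualNumber L) * DualNumber.eps = 0 := DualNumber.eps_mul_eps
  have hA1 : φ (A1 K) = 1 := by
    rw [A1, map_mul, map_mul, map_dot, hV]
    have h5 : φ (V K 4 0) = w ι 4 0 := congrFun (hV 4) 0
    have h6 : φ (V K 5 0) = w ι 5 0 := congrFun (hV 5) 0
    rw [h5, h6]
    simp [w, dot]
  have hA2 : φ (A2 K) = 1 := by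
    rw [A2, map_mul, map_mul, map_dot, hV]
    have h5 : φ (V K 7 0) = w ι 7 0 := congrFun (hV 7) 0
    have h6 : φ (V K 8 0) = w ι 8 0 := congrFun (hV 8) 0
    rw [h5, h6]
    simp [w, dot]
    linear_combination ((algebraMap L (DualNumber L) 2⁻¹) ^ 2 +
      (algebraMap L (DualNumber L) (ι / 2)) ^ 2) * h4
  have h7 : φ (dot (V K 1) (V K 3)) = DualNumber.eps := by
    rw [map_dot, hV, hV]
    simp [w, dot]
  rw [RingHom.mem_ker, map_mul, map_pow, map_mul, map_mul, map_mul, map_mul, map_pow, hA1, hA2,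
    h0, h7] at h3
  have h8 : (DualNumber.eps : DualNumber L) = 0 := by simpa using h3
  have h9 := congrArg TrivSqZeroExt.snd h8
  simp at h9

lemma hmin (Q : Ideal (S K)) (hQ : Q.IsPrime) (hI : lss K 3 9 G ≤ Q)
    (hs : A1 K * A2 K * V K 0 0 ∉ Q) (hr : dot (V K 2) (V K 3) ∈ Q) :
    ∃ Q' : Ideal (S K), Q'.IsPrime ∧ lss K 3 9 G ≤ Q' ∧ Q' < Q := by
  let L := FractionRing (S K ⧸ Q)
  let φ : S K →+* L := (algebraMap (S K ⧸ Q) L).comp (Ideal.Quotient.mk Q)
  have hker : ∀ x, φ x = 0 ↔ x ∈ Q := by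
    intro x
    simp only [φ, RingHom.comp_apply]
    rw [map_eq_zero_iff _ (IsFractionRing.injective (S K ⧸ Q) L), Ideal.Quotient.eq_zero_iff_mem]
  set v : Fin 9 → Fin 3 → L := fun j i => φ (X (i, j)) with hv
  have hrel : Rel v := (lss_le_ker φ v (fun _ _ => rfl)).1 (by
    intro x hx
    rw [RingHom.mem_ker, hker]
    exact hI hx)
  have hV : ∀ j, (fun i => φ (V K j i)) = v j := fun j => rfl
  have h0 : ∀ j i, φ (V K j i) = v j i := fun j i => rfl
  have e : ∀ j k, (j, k) ∈ edges → dot (v j) (v k) = 0 := fun j k h => hrel (j, k) h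
  have hs' : φ (A1 K * A2 K * V K 0 0) ≠ 0 := fun h => hs ((hker _).1 h)
  rw [map_mul, map_mul, A1, A2, map_mul, map_mul, map_mul, map_mul, map_dot, map_dot] at hs'
  simp only [h0, mul_ne_zero_iff] at hs'
  obtain ⟨⟨⟨ha, hb4, hb5⟩, ha', hb7, hb8⟩, hf⟩ := hs'
  have hff : dot (v 0) (v 0) = 0 := by
    have h4 := gram_four (v 3) (v 0) (v 4) (v 5) (by rw [dot_comm]; exact e 0 3 (by decide))
      (e 3 4 (by decide)) (e 3 5 (by decide)) (e 0 4 (by decide)) (e 0 5 (by decide))
      (e 4 5 (by decide))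
    simpa [ha, hb4, hb5] using h4
  have hgg : dot (v 1) (v 1) = 0 := by
    have h4 := gram_four (v 6) (v 1) (v 7) (v 8) (by rw [dot_comm]; exact e 1 6 (by decide))
      (e 6 7 (by decide)) (e 6 8 (by decide)) (e 1 7 (by decide)) (e 1 8 (by decide))
      (e 7 8 (by decide))
    simpa [ha', hb7, hb8] using h4
  have hga : dot (v 1) (v 3) = 0 := by
    have h5 := gram_two (v 0) (v 1) (v 1) (v 3) (e 0 1 (by decide)) (e 0 1 (by decide))
      (e 0 3 (by decide))
    rw [hff, hgg, zero_mul, zero_sub, zero_dvd_iff, dot_comm (v 3) (v 1)] at h5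
    simpa [hf] using h5
  have hra : dot (v 2) (v 3) = 0 := by
    have := (hker _).2 hr
    rwa [map_dot] at this
  -- the deformation
  let v' : Fin 9 → Fin 3 → Polynomial L := fun j i =>
    Polynomial.C (v j i) + (if j = 2 then Polynomial.X * Polynomial.C (v 3 i) else 0)
  let φ' : S K →+* Polynomial L :=
    eval₂Hom ((Polynomial.C : L →+* Polynomial L).comp (φ.comp MvPolynomial.C))
      (fun x => v' x.2 x.1)
  have hφ' : ∀ j i, v' j i = φ' (X (i, j)) := by
    intro j i
    simp [φ']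
  have hdot : ∀ u w : Fin 3 → L, dot (fun i => Polynomial.C (u i)) (fun i => Polynomial.C (w i))
      = Polynomial.C (dot u w) := fun u w => (map_dot _ _ _).symm
  have hrel' : Rel v' := by
    intro x hx
    have h1 : ∀ x ∈ edges, x = (0, 2) ∨ x = (1, 2) ∨ (x.1 ≠ 2 ∧ x.2 ≠ 2) := by decide
    rcases h1 x hx with rfl | rfl | ⟨h1, h2⟩
    · have h2 : dot (v' 0) (v' 2) = Polynomial.C (dot (v 0) (v 2)) +
          Polynomial.X * Polynomial.C (dot (v 0) (v 3)) := by
        simp [v', dot]; ring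
      simp only [h2, e 0 2 (by decide), e 0 3 (by decide), map_zero, mul_zero, add_zero]
    · have h2 : dot (v' 1) (v' 2) = Polynomial.C (dot (v 1) (v 2)) +
          Polynomial.X * Polynomial.C (dot (v 1) (v 3)) := by
        simp [v', dot]; ring
      simp only [h2, e 1 2 (by decide), hga, map_zero, mul_zero, add_zero]
    · have h3 : ∀ j, j ≠ 2 → v' j = fun i => Polynomial.C (v j i) := by
        intro j hj
        funext i
        simp [v', hj]
      rw [h3 _ h1, h3 _ h2, hdot, hrel x hx, map_zero]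
  have hI' := (lss_le_ker φ' v' hφ').2 hrel'
  have hcomp : (Polynomial.evalRingHom (0 : L)).comp φ' = φ := by
    apply MvPolynomial.ringHom_ext
    · intro c
      simp [φ']
    · rintro ⟨i, j⟩
      simp only [RingHom.comp_apply, ← hφ']
      simp only [v', hv]
      split_ifs <;> simp
  refine ⟨RingHom.ker φ', RingHom.ker_isPrime φ', hI', ?_, ?_⟩
  · intro x hx
    rw [RingHom.mem_ker] at hx
    rw [← hker, ← hcomp, RingHom.comp_apply, hx, map_zero]
  · intro h
    have h1 := h hr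
    rw [RingHom.mem_ker, map_dot] at h1
    have h2 : ∀ j, (fun i => φ' (V K j i)) = v' j := by
      intro j
      funext i
      rw [hφ']; rfl
    rw [h2, h2] at h1
    have h3 : dot (v' 2) (v' 3) = Polynomial.C (dot (v 2) (v 3)) +
        Polynomial.X * Polynomial.C (dot (v 3) (v 3)) := by
      simp [v', dot]; ring
    rw [h3, hra, map_zero, zero_add, mul_eq_zero] at h1
    rcases h1 with h1 | h1
    · exact Polynomial.X_ne_zero h1
    · exact ha (Polynomial.C_eq_zero.1 h1)

end main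

/-- **LSS ideals can have embedded primes.** Let `K` be any field with `2 ≠ 0`. There is a graph
`G` on `9` vertices (a triangle with a `K₄` glued at each of two of its vertices, `15` edges) such
that `LSS(3, G)` has an embedded associated prime `P`: it properly contains another associated
prime `Q` (which is a minimal prime) of `LSS(3, G)`. -/
theorem result (K : Type*) [Field K] (h2 : (2 : K) ≠ 0) :
    ∃ G : SimpleGraph (Fin 9),
      ∃ P ∈ associatedPrimes (MvPolynomial (Fin 3 × Fin 9) K)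
          (MvPolynomial (Fin 3 × Fin 9) K ⧸ lss K 3 9 G),
      ∃ Q ∈ associatedPrimes (MvPolynomial (Fin 3 × Fin 9) K)
          (MvPolynomial (Fin 3 × Fin 9) K ⧸ lss K 3 9 G),
        Q ∈ (lss K 3 9 G).minimalPrimes ∧ Q < P :=
  ⟨G, R831.Embed.exists_embedded (lss K 3 9 G) (A1 K * A2 K * V K 0 0)
    (A1 K * (V K 0 0) ^ 2 * dot (V K 1) (V K 3)) (dot (V K 2) (V K 3))
    (hg K h2) (hr K) (hmin K)⟩

end Pool.Agent.Results.MP_e1e5e2_ag.EmbeddedPrime
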